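import Pool.Agent.H992.SF.GDefs

/-!
# The core induction (project SG of helper992)
-/

set_option autoImplicit false
open MeasureTheory Filter Topology Complex ProbabilityTheory
open scoped ContDiff ENNReal

namespace Pool.Agent.H588.SG

open Pool.Agent.W745.RW (TF)
open Pool.Agent.N661.BR (MW lin shift IsStationary IsErgodic IsRandomWave)
open Pool.Agent.N661.BH (HP area frames loc mv LocalLaws)
open Pool.Agent.N814.BHM
open Pool.Agent.N814.BHASM
open Pool.Agent.H992.LB (eγ eX SX nn fs val eX_norm eX_meas eγ_norm eγ_meas)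
open Pool.Agent.H992.SF

theorem ad_meas {Ω : Set ℂ} {ψ : ℂ → ℝ} (h : Ad Ω ψ) : Measurable ψ := by
  rcases h with h | rfl
  · exact h.1.continuous.measurable
  · exact measurable_const

theorem ad_bd {Ω : Set ℂ} {ψ : ℂ → ℝ} (h : Ad Ω ψ) : ∃ C : ℝ, ∀ z, ‖ψ z‖ ≤ C := by
  rcases h with h | rfl
  · exact h.1.continuous.bounded_above_of_compact_support h.2.1
  · exact ⟨1, fun z => by simp⟩

variable {d : ℕ}

theorem eXJ_norm (lam : Fin d → ℝ) (u : Fin d → ℂ → ℝ) (τ : Fin d → ℂ →₀ ℝ)
    (p : ℂ × (ℝ × Bool)) : ‖eXJ lam u τ p‖ = 1 := by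
  unfold eXJ
  rw [norm_prod]
  exact Finset.prod_eq_one fun i _ => eX_norm _ _ _ p

theorem eXJ_meas {lam : Fin d → ℝ} {u : Fin d → ℂ → ℝ} (hu : ∀ i, ContDiffOn ℝ ∞ (u i) HP)
    (τ : Fin d → ℂ →₀ ℝ) : Measurable (eXJ lam u τ) := by
  unfold eXJ
  exact Finset.measurable_fun_prod _ fun i _ => eX_meas (hu i) _

theorem int_eXJ {Ω : Set ℂ} [IsProbabilityMeasure (P Ω)] {ψ : ℂ → ℝ} (hψ : Ad Ω ψ)
    {lam : Fin d → ℝ} {u : Fin d → ℂ → ℝ} (hu : ∀ i, ContDiffOn ℝ ∞ (u i) HP)
    (τ : Fin d → ℂ →₀ ℝ) : Integrable (fun p => (ψ p.1 : ℂ) * eXJ lam u τ p) (P Ω) := by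
  obtain ⟨C, hC⟩ := ad_bd hψ
  refine Integrable.of_bound (C := C) ((Complex.measurable_ofReal.comp
    ((ad_meas hψ).comp measurable_fst)).mul (eXJ_meas hu τ)).aestronglyMeasurable
    (Eventually.of_forall fun p => ?_)
  rw [norm_mul, eXJ_norm, mul_one, Complex.norm_real]
  exact hC _

theorem eγ_zero (f : MW) : eγ 0 f = 1 := by
  unfold eγ val
  rw [Finsupp.sum_zero_index]
  simp

theorem md_zero (τ : ℂ →₀ ℝ) (x : ℂ) : τ.mapDomain (· + ((0 : ℝ) : ℂ) * x) = τ := by
  have e : (fun y : ℂ => y + ((0 : ℝ) : ℂ) * x) = id := by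
    funext y
    simp
  rw [e, Finsupp.mapDomain_id]

theorem core (h1 : S_MIX) (h2 : S_FAST) (h3 : S_LINV2) : S_CORE := by
  intro d Ω lam u H hst γ hγp hγ A
  induction A using Finset.strongInduction with
  | H A ih =>
  intro S hAS ψ hψ σ hσ g hg h hh hlim τ hτ
  rcases A.eq_empty_or_nonempty with rfl | hne
  · have ht : ∀ i, τ i = 0 := fun i => hτ i (Finset.notMem_empty i)
    have e1 : ∀ F, eJ τ F = 1 := by
      intro F
      unfold eJ
      exact Finset.prod_eq_one fun i _ => by rw [ht, eγ_zero]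
    have e2 : ∀ i, ∫ f, eγ (τ i) f ∂γ = 1 := by
      intro i
      rw [ht]
      simp only [eγ_zero]
      simp
    simp only [e1, e2, mul_one, Finset.prod_const_one, one_mul]
  · obtain ⟨i₀, hi₀, hc⟩ := h2 d lam (fun i => (H i).pos) hst A hne
    have := probP (H i₀)
    classical
    choose! c' hc' using hc
    let c : Fin d → ℝ := fun i => if i ∈ A then c' i else 0
    have hcA : ∀ i ∈ A, Tendsto (fun n => √(lam i n / lam i₀ n)) atTop (𝓝 (c i)) := by
      intro i hi
      have e : c i = c' i := if_pos hi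
      rw [e]
      exact hc' i hi
    have hcn : ∀ i, i ∉ A → c i = 0 := fun i hi => if_neg hi
    have hc0 : c i₀ = 1 := by
      refine tendsto_nhds_unique (hcA i₀ hi₀) ?_
      have e : (fun n => √(lam i₀ n / lam i₀ n)) = fun _ => (1 : ℝ) := by
        funext n
        rw [div_self ((H i₀).pos n).ne', Real.sqrt_one]
      rw [e]
      exact tendsto_const_nhds
    have hSA : ∀ i ∈ S, i ∉ A := by
      intro i hiS hiA
      have e1 := hAS i hiA i hiS
      have e : (fun n => lam i n / lam i n) = fun _ => (1 : ℝ) := by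
        funext n
        rw [div_self ((H i).pos n).ne']
      rw [e] at e1
      exact one_ne_zero (tendsto_nhds_unique tendsto_const_nhds e1)
    have hcAS : ∀ i ∈ A ∪ S, Tendsto (fun n => √(lam i n / lam i₀ n)) atTop (𝓝 (c i)) := by
      intro i hi
      rcases Finset.mem_union.1 hi with hi | hi
      · exact hcA i hi
      · rw [hcn i (hSA i hi)]
        have e1 := (Real.continuous_sqrt.tendsto 0).comp (hAS i₀ hi₀ i hi)
        rw [Real.sqrt_zero] at e1
        exact e1
    have key : ∀ τ : Fin d → ℂ →₀ ℝ, On A τ → ∀ x : ℂ,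
        ∫ F, (starRingEnd ℂ) (h F) * eJ (sh c x τ) F ∂(pr d γ) =
          ∫ F, (starRingEnd ℂ) (h F) * eJ τ F ∂(pr d γ) := by
      intro τ hτ x
      have hsτ : On A (sh c x τ) := by
        intro i hi
        show (τ i).mapDomain _ = 0
        rw [hτ i hi, Finsupp.mapDomain_zero]
      have hon : On (A ∪ S) (fun i => τ i + σ i) := by
        intro i hi
        rw [Finset.mem_union, not_or] at hi
        show τ i + σ i = 0
        rw [hτ i hi.1, hσ i hi.2, add_zero]
      have hsh : sh c x (fun i => τ i + σ i) = fun i => sh c x τ i + σ i := by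
        funext i
        show (τ i + σ i).mapDomain _ = (τ i).mapDomain _ + σ i
        rw [Finsupp.mapDomain_add]
        by_cases hi : i ∈ S
        · have e : c i = 0 := hcn i (hSA i hi)
          rw [e, md_zero (σ i)]
        · rw [hσ i hi, Finsupp.mapDomain_zero]
      have t1 := (h3 d Ω lam u H i₀ (A ∪ S) c hcAS ψ hψ _ hon x).mono_left hg
      have t2 := (hlim _ hsτ).sub (hlim _ hτ)
      rw [hsh] at t1
      refine sub_eq_zero.1 (tendsto_nhds_unique t2 ?_)
      refine t1.congr fun n => ?_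
      rw [← integral_sub (int_eXJ hψ (fun i => (H i).sm n) _) (int_eXJ hψ (fun i => (H i).sm n) _)]
      refine integral_congr_ae (Eventually.of_forall fun p => ?_)
      simp only
      ring
    have m1 := h1 γ hγp hγ d c h hh τ (key τ hτ)
    have hsub : A.filter (fun i => c i = 0) ⊂ A := by
      rw [Finset.filter_ssubset]
      exact ⟨i₀, hi₀, by rw [hc0]; exact one_ne_zero⟩
    have hτ' : On (A.filter (fun i => c i = 0)) (fun i => if c i = 0 then τ i else 0) := by
      intro i hi
      show (if c i = 0 then τ i else 0) = 0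
      by_cases hci : c i = 0
      · rw [if_pos hci]
        refine hτ i fun hA => hi ?_
        exact Finset.mem_filter.2 ⟨hA, hci⟩
      · rw [if_neg hci]
    have hmono : ∀ ρ : Fin d → ℂ →₀ ℝ, On (A.filter (fun i => c i = 0)) ρ → On A ρ := by
      intro ρ hρ i hi
      exact hρ i fun h => hi (Finset.mem_filter.1 h).1
    have m2 := ih _ hsub S (fun i hi j hj => hAS i (Finset.mem_filter.1 hi).1 j hj) ψ hψ σ hσ g hg
      h hh (fun ρ hρ => hlim ρ (hmono ρ hρ)) _ hτ'
    rw [m1, m2, ← mul_assoc, ← Finset.prod_mul_distrib]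
    congr 1
    refine Finset.prod_congr rfl fun i _ => ?_
    by_cases hci : c i = 0
    · simp only [if_pos hci, one_mul]
    · simp only [if_neg hci, eγ_zero]
      simp

end Pool.Agent.H588.SG
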